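import Pool.Agent.H.MP_b3b2bb_nt.A

set_option autoImplicit false

namespace Pool.Agent.Results.MP_b3b2bb_nt.Yes

open Complex

/-- `R a x u v n` is the term of index `n - 1` of the solution with terms `u`, `v` at `-1`, `0` -/
noncomputable def R (a x u v : ℂ) : ℕ → ℂ
  | 0 => u
  | 1 => v
  | n + 2 => R a x u v (n + 1) + a * x ^ (n + 1) * R a x u v n

noncomputable def P (a x : ℂ) (n : ℕ) : ℂ := R a x 1 1 (n + 1)

noncomputable def Q (a x : ℂ) (n : ℕ) : ℂ := R a x 1 (1 + a) (n + 1)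

theorem br (a x u v : ℂ) (n : ℕ) : R a x u v n = Pool.Agent.H.MP_b3b2bb_nt.R a x u v n := by
  induction n using Nat.twoStepInduction with
  | zero => rfl
  | one => rfl
  | more n i1 i2 => rw [R, i1, i2]; rfl

theorem result (k m : ℕ) (j l l' : ℤ) (hk : 1 ≤ k) (hm : 3 ≤ m) (_hj : Int.gcd j k = 1)
    (hl : Int.gcd l m = 1) (h5 : 5 ∣ m) (hkm : k ∣ m) (hl' : l * l' ≡ 1 [ZMOD m]) (r : ℕ)
    (hr : (r : ℤ) ≡ -((m / k : ℕ) * j * l') - 1 [ZMOD m] ∨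
      (r : ℤ) ≡ -((m / k : ℕ) * j * l') - 2 [ZMOD m])
    (a x : ℂ) (ha : a = exp (2 * Real.pi * I * j / k)) (hx : x = exp (2 * Real.pi * I * l / m))
    (A : Matrix (Fin 2) (Fin 2) ℂ)
    (hA : A = !![a * x ^ (m - 1) * P a x (m - 3), P a x (m - 2);
      a * x ^ (m - 1) * Q a x (m - 3), Q a x (m - 2)])
    (v : Fin 2 → ℂ) (hv : v = ![P a x r, Q a x r]) :
    v ≠ 0 ∧ ∃ z : ℂ, (z = ((1 + √5) / 2 : ℝ) ∨ z = ((1 - √5) / 2 : ℝ)) ∧ A.mulVec v = z • v := by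
  simp only [P, Q, br, show m - 3 + 1 = m - 2 by omega, show m - 2 + 1 = m - 1 by omega] at hA hv
  exact Pool.Agent.H.MP_b3b2bb_nt.main k m j l l' hk hm hl h5 hkm hl' r hr a x ha hx A hA v hv

end Pool.Agent.Results.MP_b3b2bb_nt.Yes
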